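import Mathlib

/-!
# The asymptotic spectrum distance on infinite graphs: definitions

Graphs are Mathlib simple graphs (no loops), possibly infinite. Disjoint union is Mathlib's
`SimpleGraph.sum`.
-/

namespace Pool.Agent.MP83ab87

/-- `G ≤ H`: there is a cohomomorphism from `G` to `H`, that is, a map of the vertex sets that sends
every pair of distinct non-adjacent vertices to a pair of distinct non-adjacent vertices. -/
def CohomLE {V W : Type} (G : SimpleGraph V) (H : SimpleGraph W) : Prop :=
  ∃ f : V → W, ∀ u v : V, u ≠ v → ¬ G.Adj u v → f u ≠ f v ∧ ¬ H.Adj (f u) (f v)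

/-- The edgeless graph `E_n` on `n` vertices. -/
def edgeless (n : ℕ) : SimpleGraph (Fin n) := ⊥

/-- The strong product `G ⊠ H`. -/
def strongProduct {V W : Type} (G : SimpleGraph V) (H : SimpleGraph W) : SimpleGraph (V × W) where
  Adj p q := p ≠ q ∧ (p.1 = q.1 ∨ G.Adj p.1 q.1) ∧ (p.2 = q.2 ∨ H.Adj p.2 q.2)
  symm := ⟨fun _ _ h => ⟨h.1.symm, h.2.1.imp Eq.symm G.adj_symm, h.2.2.imp Eq.symm H.adj_symm⟩⟩
  loopless := ⟨fun _ h => h.1 rfl⟩

theorem cover_sum {V W : Type} {G : SimpleGraph V} {H : SimpleGraph W}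
    (hG : ∃ n : ℕ, CohomLE G (edgeless n)) (hH : ∃ n : ℕ, CohomLE H (edgeless n)) :
    ∃ n : ℕ, CohomLE (G.sum H) (edgeless n) := by
  obtain ⟨n, f, hf⟩ := hG
  obtain ⟨m, g, hg⟩ := hH
  refine ⟨n + m, Sum.elim (fun u => Fin.castAdd m (f u)) (fun v => Fin.natAdd n (g v)), ?_⟩
  rintro (u | u) (v | v) huv hadj <;> refine ⟨fun h => ?_, fun h => h⟩ <;>
    simp only [Sum.elim_inl, Sum.elim_inr] at h
  · exact (hf u v (fun e => huv (by rw [e])) (fun e => hadj e)).1 (Fin.castAdd_injective n m h)
  · have h1 := congrArg Fin.val h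
    simp only [Fin.val_castAdd, Fin.val_natAdd] at h1
    have := (f u).isLt
    omega
  · have h1 := congrArg Fin.val h
    simp only [Fin.val_castAdd, Fin.val_natAdd] at h1
    have := (f v).isLt
    omega
  · exact (hg u v (fun e => huv (by rw [e])) (fun e => hadj e)).1 (Fin.natAdd_injective m n h)

theorem cover_prod {V W : Type} {G : SimpleGraph V} {H : SimpleGraph W}
    (hG : ∃ n : ℕ, CohomLE G (edgeless n)) (hH : ∃ n : ℕ, CohomLE H (edgeless n)) :
    ∃ n : ℕ, CohomLE (strongProduct G H) (edgeless n) := by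
  obtain ⟨n, f, hf⟩ := hG
  obtain ⟨m, g, hg⟩ := hH
  refine ⟨n * m, fun p => finProdFinEquiv (f p.1, g p.2), ?_⟩
  rintro ⟨u, v⟩ ⟨u', v'⟩ huv hadj
  refine ⟨fun h => ?_, fun h => h⟩
  have h1 := Prod.ext_iff.1 (finProdFinEquiv.injective h)
  simp only at h1
  apply hadj
  refine ⟨huv, ?_, ?_⟩
  · by_contra hcon
    push Not at hcon
    exact (hf u u' hcon.1 hcon.2).1 h1.1
  · by_contra hcon
    push Not at hcon
    exact (hg v v' hcon.1 hcon.2).1 h1.2

/-- The class `𝒢_∞` of graphs whose vertex set has cardinality at most that of the continuum and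
whose clique covering number is finite, i.e. which have a cohomomorphism to some `E_n`. -/
structure GInf where
  /-- the vertex set -/
  V : Type
  /-- the graph -/
  graph : SimpleGraph V
  card_le : Cardinal.mk V ≤ Cardinal.continuum
  cover : ∃ n : ℕ, CohomLE graph (edgeless n)

/-- The edgeless graph `E_n` as an element of `𝒢_∞`. -/
def GInf.edgeless (n : ℕ) : GInf where
  V := Fin n
  graph := MP83ab87.edgeless n
  card_le := by
    rw [Cardinal.mk_fin]
    exact (Cardinal.natCast_lt_aleph0 (n := n)).le.trans Cardinal.aleph0_le_continuum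
  cover := ⟨n, id, fun _ _ h _ => ⟨h, fun h' => h'⟩⟩

/-- The disjoint union of two graphs in `𝒢_∞`. -/
def GInf.sum (G H : GInf) : GInf where
  V := G.V ⊕ H.V
  graph := G.graph.sum H.graph
  card_le := by
    simpa using Cardinal.add_le_of_le Cardinal.aleph0_le_continuum G.card_le H.card_le
  cover := cover_sum G.cover H.cover

/-- The strong product of two graphs in `𝒢_∞`. -/
def GInf.prod (G H : GInf) : GInf where
  V := G.V × H.V
  graph := strongProduct G.graph H.graph
  card_le := by
    simpa using Cardinal.mul_le_of_le Cardinal.aleph0_le_continuum G.card_le H.card_le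
  cover := cover_prod G.cover H.cover

/-- The elements of the asymptotic spectrum `𝒳_∞`: maps `𝒢_∞ → ℝ≥0` that are additive under
disjoint union, multiplicative under the strong product, normalised to `n` on `E_n` for every `n`,
and monotone under the cohomomorphism preorder. -/
structure SpectralPoint where
  /-- the underlying map -/
  toFun : GInf → ℝ
  nonneg : ∀ G, 0 ≤ toFun G
  map_sum : ∀ G H, toFun (G.sum H) = toFun G + toFun H
  map_prod : ∀ G H, toFun (G.prod H) = toFun G * toFun H
  map_edgeless : ∀ n : ℕ, toFun (GInf.edgeless n) = n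
  mono : ∀ G H : GInf, CohomLE G.graph H.graph → toFun G ≤ toFun H

/-- The asymptotic spectrum distance `d(G,H) = sup_{F ∈ 𝒳_∞} |F(G) - F(H)|`, with the supremum
taken in `[0, ∞]`. -/
noncomputable def asympDist (G H : GInf) : ENNReal :=
  ⨆ F : SpectralPoint, ENNReal.ofReal |F.toFun G - F.toFun H|

end Pool.Agent.MP83ab87
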