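import Pool.Agent.Lib.MP_83ab87_co.Defs

/-!
# Fractional clique coverings of possibly infinite graphs
-/

namespace Pool.Agent.MP83ab87

open Finset

variable {V W : Type}

/-- `CovOn G S a b`: the vertices in `S` can be given sets of at least `b` colours out of a set of
at most `a` colours, distinct non-adjacent vertices getting disjoint sets. -/
def CovOn (G : SimpleGraph V) (S : Set V) (a b : ℕ) : Prop :=
  ∃ (T : Finset ℕ) (c : V → Finset ℕ), T.card ≤ a ∧ (∀ v ∈ S, c v ⊆ T ∧ b ≤ (c v).card) ∧
    ∀ u ∈ S, ∀ v ∈ S, u ≠ v → ¬ G.Adj u v → Disjoint (c u) (c v)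

theorem covOn_of_encodable {α : Type} [Encodable α] {G : SimpleGraph V} {S : Set V} {a b : ℕ}
    (T : Finset α) (c : V → Finset α) (hT : T.card ≤ a)
    (h1 : ∀ v ∈ S, c v ⊆ T ∧ b ≤ (c v).card)
    (h2 : ∀ u ∈ S, ∀ v ∈ S, u ≠ v → ¬ G.Adj u v → Disjoint (c u) (c v)) : CovOn G S a b := by
  refine ⟨T.map ⟨Encodable.encode, Encodable.encode_injective⟩,
    fun v => (c v).map ⟨Encodable.encode, Encodable.encode_injective⟩, ?_, ?_, ?_⟩
  · simpa using hT
  · intro v hv
    refine ⟨Finset.map_subset_map.2 (h1 v hv).1, ?_⟩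
    simpa using (h1 v hv).2
  · intro u hu v hv huv hadj
    exact (Finset.disjoint_map _).2 (h2 u hu v hv huv hadj)

theorem CovOn.comap {G : SimpleGraph V} {H : SimpleGraph W} {S : Set V} {S' : Set W} {a b : ℕ}
    (h : CovOn H S' a b) (f : V → W) (hS : ∀ u ∈ S, f u ∈ S')
    (hf : ∀ u ∈ S, ∀ v ∈ S, u ≠ v → ¬ G.Adj u v → f u ≠ f v ∧ ¬ H.Adj (f u) (f v)) :
    CovOn G S a b := by
  obtain ⟨T, c, hT, h1, h2⟩ := h
  exact ⟨T, fun v => c (f v), hT, fun v hv => h1 (f v) (hS v hv),
    fun u hu v hv huv hadj => h2 _ (hS u hu) _ (hS v hv) (hf u hu v hv huv hadj).1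
      (hf u hu v hv huv hadj).2⟩

theorem covOn_of_cover {G : SimpleGraph V} (h : ∃ n : ℕ, CohomLE G (edgeless n)) (S : Set V) :
    ∃ n : ℕ, CovOn G S n 1 := by
  obtain ⟨n, f, hf⟩ := h
  refine ⟨n, covOn_of_encodable (α := Fin n) Finset.univ (fun v => {f v}) (by simp) ?_ ?_⟩
  · intro v _
    simp
  · intro u _ v _ huv hadj
    simpa using (hf u v huv hadj).1

/-- The fractional clique covering number of the graph induced on `S`, defined as an infimum of
ratios. -/
noncomputable def frac (G : SimpleGraph V) (S : Set V) : ℝ :=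
  sInf {x : ℝ | ∃ a b : ℕ, 0 < b ∧ CovOn G S a b ∧ x = a / b}

theorem frac_bdd (G : SimpleGraph V) (S : Set V) :
    BddBelow {x : ℝ | ∃ a b : ℕ, 0 < b ∧ CovOn G S a b ∧ x = a / b} := by
  refine ⟨0, ?_⟩
  rintro x ⟨a, b, _, _, rfl⟩
  positivity

theorem frac_nonneg (G : SimpleGraph V) (S : Set V) : 0 ≤ frac G S := by
  apply Real.sInf_nonneg
  rintro x ⟨a, b, _, _, rfl⟩
  positivity

theorem frac_le {G : SimpleGraph V} {S : Set V} {a b : ℕ} (hb : 0 < b) (h : CovOn G S a b) :
    frac G S ≤ a / b :=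
  csInf_le (frac_bdd G S) ⟨a, b, hb, h, rfl⟩

theorem le_frac {G : SimpleGraph V} {S : Set V} {x : ℝ} (hG : ∃ n : ℕ, CovOn G S n 1)
    (h : ∀ a b : ℕ, 0 < b → CovOn G S a b → x ≤ a / b) : x ≤ frac G S := by
  obtain ⟨n, hn⟩ := hG
  refine le_csInf ⟨(n : ℝ) / (1 : ℕ), n, 1, one_pos, hn, rfl⟩ ?_
  rintro y ⟨a, b, hb, hc, rfl⟩
  exact h a b hb hc

theorem frac_comap {G : SimpleGraph V} {H : SimpleGraph W} {S : Set V} {S' : Set W}
    (hH : ∃ n : ℕ, CovOn H S' n 1) (f : V → W) (hS : ∀ u ∈ S, f u ∈ S')
    (hf : ∀ u ∈ S, ∀ v ∈ S, u ≠ v → ¬ G.Adj u v → f u ≠ f v ∧ ¬ H.Adj (f u) (f v)) :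
    frac G S ≤ frac H S' :=
  le_frac hH fun _ _ hb hc => frac_le hb (hc.comap f hS hf)

theorem frac_mono {G : SimpleGraph V} {S S' : Set V} (hH : ∃ n : ℕ, CovOn G S' n 1)
    (h : S ⊆ S') : frac G S ≤ frac G S' :=
  frac_comap hH id (fun _ hu => h hu) fun _ _ _ _ huv hadj => ⟨huv, hadj⟩

/-- Replicating colours. -/
theorem CovOn.replicate {G : SimpleGraph V} {S : Set V} {a b : ℕ} (h : CovOn G S a b) (k : ℕ) :
    CovOn G S (a * k) (b * k) := by
  obtain ⟨T, c, hT, h1, h2⟩ := h
  refine covOn_of_encodable (α := ℕ × ℕ) (T ×ˢ Finset.range k) (fun v => c v ×ˢ Finset.range k)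
    ?_ ?_ ?_
  · rw [Finset.card_product, Finset.card_range]
    exact Nat.mul_le_mul_right k hT
  · intro v hv
    refine ⟨Finset.product_subset_product_left (h1 v hv).1, ?_⟩
    rw [Finset.card_product, Finset.card_range]
    exact Nat.mul_le_mul_right k (h1 v hv).2
  · intro u hu v hv huv hadj
    rw [Finset.disjoint_left]
    rintro ⟨x, y⟩ hx hy
    rw [Finset.mem_product] at hx hy
    exact Finset.disjoint_left.1 (h2 u hu v hv huv hadj) hx.1 hy.1

/-- `frac` of `E_n`. -/
theorem frac_edgeless (n : ℕ) : frac (edgeless n) Set.univ = n := by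
  have hc : CovOn (edgeless n) Set.univ n 1 := by
    refine covOn_of_encodable (α := Fin n) Finset.univ (fun v => {v}) (by simp) ?_ ?_
    · intro v _
      simp
    · intro u _ v _ huv _
      simpa using huv
  apply le_antisymm
  · simpa using frac_le one_pos hc
  · apply le_frac ⟨n, hc⟩
    rintro a b hb ⟨T, c, hT, h1, h2⟩
    rw [le_div_iff₀ (by exact_mod_cast hb)]
    have h3 : (Finset.univ.biUnion c).card = ∑ v : Fin n, (c v).card := by
      apply Finset.card_biUnion
      intro u _ v _ huv
      exact h2 u (Set.mem_univ _) v (Set.mem_univ _) huv (fun h => h)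
    have h4 : Finset.univ.biUnion c ⊆ T := by
      intro x hx
      rw [Finset.mem_biUnion] at hx
      obtain ⟨v, _, hv⟩ := hx
      exact (h1 v (Set.mem_univ _)).1 hv
    have h5 : ∑ _v : Fin n, b ≤ ∑ v : Fin n, (c v).card :=
      Finset.sum_le_sum fun v _ => (h1 v (Set.mem_univ _)).2
    have h6 := Finset.card_le_card h4
    simp only [Finset.sum_const, Finset.card_univ, Fintype.card_fin, smul_eq_mul] at h5
    have : n * b ≤ a := by omega
    exact_mod_cast this

theorem frac_sum {G : SimpleGraph V} {H : SimpleGraph W} (hG : ∃ n : ℕ, CohomLE G (edgeless n))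
    (hH : ∃ n : ℕ, CohomLE H (edgeless n)) (S : Set (V ⊕ W)) :
    frac (G.sum H) S = frac G (Sum.inl ⁻¹' S) + frac H (Sum.inr ⁻¹' S) := by
  apply le_antisymm
  · -- combine colourings
    have key : ∀ a b a' b' : ℕ, 0 < b → 0 < b' → CovOn G (Sum.inl ⁻¹' S) a b →
        CovOn H (Sum.inr ⁻¹' S) a' b' → frac (G.sum H) S ≤ (a : ℝ) / b + (a' : ℝ) / b' := by
      intro a b a' b' hb hb' h h'
      obtain ⟨T, c, hT, h1, h2⟩ := h.replicate b'
      obtain ⟨T', c', hT', h1', h2'⟩ := h'.replicate b
      have hcov : CovOn (G.sum H) S (a * b' + a' * b) (b * b') := by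
        refine covOn_of_encodable (α := ℕ ⊕ ℕ) (T.disjSum T')
          (Sum.elim (fun v => (c v).disjSum ∅) (fun w => (∅ : Finset ℕ).disjSum (c' w))) ?_ ?_ ?_
        · rw [Finset.card_disjSum]
          omega
        · rintro (v | w) hv
          · simp only [Sum.elim_inl]
            refine ⟨Finset.disjSum_mono (h1 v hv).1 (Finset.empty_subset _), ?_⟩
            rw [Finset.card_disjSum]
            simpa using (h1 v hv).2
          · simp only [Sum.elim_inr]
            refine ⟨Finset.disjSum_mono (Finset.empty_subset _) (h1' w hv).1, ?_⟩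
            rw [Finset.card_disjSum]
            have := (h1' w hv).2
            rw [Nat.mul_comm b' b] at this
            simpa using this
        · rintro (u | u) hu (v | v) hv huv hadj <;>
            simp only [Sum.elim_inl, Sum.elim_inr] <;> rw [Finset.disjoint_left]
          · rintro (x | x) hx hy
            · simp only [Finset.inl_mem_disjSum] at hx hy
              exact Finset.disjoint_left.1
                (h2 u hu v hv (fun e => huv (by rw [e])) (fun e => hadj e)) hx hy
            · simp at hx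
          · rintro (x | x) hx hy
            · simp at hy
            · simp at hx
          · rintro (x | x) hx hy
            · simp at hx
            · simp at hy
          · rintro (x | x) hx hy
            · simp at hx
            · simp only [Finset.inr_mem_disjSum] at hx hy
              exact Finset.disjoint_left.1
                (h2' u hu v hv (fun e => huv (by rw [e])) (fun e => hadj e)) hx hy
      have := frac_le (Nat.mul_pos hb hb') hcov
      refine this.trans (le_of_eq ?_)
      push_cast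
      have hb0 : (b : ℝ) ≠ 0 := by exact_mod_cast hb.ne'
      have hb0' : (b' : ℝ) ≠ 0 := by exact_mod_cast hb'.ne'
      field_simp
    have h1 : frac (G.sum H) S - frac H (Sum.inr ⁻¹' S) ≤ frac G (Sum.inl ⁻¹' S) := by
      apply le_frac (covOn_of_cover hG _)
      intro a b hb h
      have h2 : frac (G.sum H) S - (a : ℝ) / b ≤ frac H (Sum.inr ⁻¹' S) := by
        apply le_frac (covOn_of_cover hH _)
        intro a' b' hb' h'
        have := key a b a' b' hb hb' h h'
        linarith
      linarith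
    linarith
  · apply le_frac (covOn_of_cover (cover_sum hG hH) _)
    rintro a b hb ⟨T, c, hT, h1, h2⟩
    classical
    -- colours used on each side
    set TG : Finset ℕ := T.filter fun i => ∃ v, Sum.inl v ∈ S ∧ i ∈ c (Sum.inl v) with hTG
    set TH : Finset ℕ := T.filter fun i => ∃ v, Sum.inr v ∈ S ∧ i ∈ c (Sum.inr v) with hTH
    have hdisj : Disjoint TG TH := by
      rw [Finset.disjoint_left]
      intro i hi hi'
      rw [hTG, Finset.mem_filter] at hi
      rw [hTH, Finset.mem_filter] at hi'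
      obtain ⟨_, v, hv, hiv⟩ := hi
      obtain ⟨_, w, hw, hiw⟩ := hi'
      exact Finset.disjoint_left.1 (h2 _ hv _ hw (by simp) (by simp)) hiv hiw
    have hcard : TG.card + TH.card ≤ a := by
      rw [← Finset.card_union_of_disjoint hdisj]
      refine (Finset.card_le_card ?_).trans hT
      exact Finset.union_subset (Finset.filter_subset _ _) (Finset.filter_subset _ _)
    have hG' : CovOn G (Sum.inl ⁻¹' S) TG.card b := by
      refine ⟨TG, fun v => c (Sum.inl v), le_rfl, ?_, ?_⟩
      · intro v hv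
        refine ⟨fun i hi => ?_, (h1 _ hv).2⟩
        rw [hTG, Finset.mem_filter]
        exact ⟨(h1 _ hv).1 hi, v, hv, hi⟩
      · intro u hu v hv huv hadj
        exact h2 _ hu _ hv (fun e => huv (Sum.inl_injective e)) (fun e => hadj e)
    have hH' : CovOn H (Sum.inr ⁻¹' S) TH.card b := by
      refine ⟨TH, fun v => c (Sum.inr v), le_rfl, ?_, ?_⟩
      · intro v hv
        refine ⟨fun i hi => ?_, (h1 _ hv).2⟩
        rw [hTH, Finset.mem_filter]
        exact ⟨(h1 _ hv).1 hi, v, hv, hi⟩
      · intro u hu v hv huv hadj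
        exact h2 _ hu _ hv (fun e => huv (Sum.inr_injective e)) (fun e => hadj e)
    have e1 := frac_le hb hG'
    have e2 := frac_le hb hH'
    have e3 : (TG.card : ℝ) / b + (TH.card : ℝ) / b ≤ a / b := by
      rw [← add_div]
      apply div_le_div_of_nonneg_right _ (by positivity)
      exact_mod_cast hcard
    linarith

theorem frac_prod {G : SimpleGraph V} {H : SimpleGraph W} (hG : ∃ n : ℕ, CohomLE G (edgeless n))
    (hH : ∃ n : ℕ, CohomLE H (edgeless n)) (S : Set V) (S' : Set W) :
    frac (strongProduct G H) (S ×ˢ S') = frac G S * frac H S' := by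
  apply le_antisymm
  · have key : ∀ a b a' b' : ℕ, 0 < b → 0 < b' → CovOn G S a b → CovOn H S' a' b' →
        frac (strongProduct G H) (S ×ˢ S') ≤ (a : ℝ) / b * ((a' : ℝ) / b') := by
      rintro a b a' b' hb hb' ⟨T, c, hT, h1, h2⟩ ⟨T', c', hT', h1', h2'⟩
      have hcov : CovOn (strongProduct G H) (S ×ˢ S') (a * a') (b * b') := by
        refine covOn_of_encodable (α := ℕ × ℕ) (T ×ˢ T') (fun p => c p.1 ×ˢ c' p.2) ?_ ?_ ?_
        · rw [Finset.card_product]
          exact Nat.mul_le_mul hT hT'
        · rintro ⟨v, w⟩ ⟨hv, hw⟩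
          refine ⟨Finset.product_subset_product (h1 v hv).1 (h1' w hw).1, ?_⟩
          rw [Finset.card_product]
          exact Nat.mul_le_mul (h1 v hv).2 (h1' w hw).2
        · rintro ⟨u, w⟩ ⟨hu, hw⟩ ⟨u', w'⟩ ⟨hu', hw'⟩ huv hadj
          simp only at hu hw hu' hw' ⊢
          rw [Finset.disjoint_left]
          rintro ⟨x, y⟩ hx hy
          rw [Finset.mem_product] at hx hy
          simp only at hx hy
          apply hadj
          refine ⟨huv, ?_, ?_⟩
          · by_contra hcon
            push Not at hcon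
            exact Finset.disjoint_left.1 (h2 u hu u' hu' hcon.1 hcon.2) hx.1 hy.1
          · by_contra hcon
            push Not at hcon
            exact Finset.disjoint_left.1 (h2' w hw w' hw' hcon.1 hcon.2) hx.2 hy.2
      have := frac_le (Nat.mul_pos hb hb') hcov
      refine this.trans (le_of_eq ?_)
      push_cast
      rw [div_mul_div_comm]
    -- pass to the infimum twice
    obtain ⟨n, hn⟩ := covOn_of_cover hG S
    obtain ⟨m, hm⟩ := covOn_of_cover hH S'
    rcases eq_or_lt_of_le (frac_nonneg G S) with h0 | hpos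
    · -- frac G S = 0
      rw [← h0, zero_mul]
      by_contra hcon
      push Not at hcon
      set x := frac (strongProduct G H) (S ×ˢ S') with hx
      have h3 : x / (m + 1) ≤ frac G S := by
        apply le_frac ⟨n, hn⟩
        intro a b hb h
        have h4 := key a b m 1 hb one_pos h hm
        rw [div_le_iff₀ (by positivity)]
        have h5 : (a : ℝ) / b * ((m : ℝ) / (1 : ℕ)) ≤ (a : ℝ) / b * (m + 1) := by
          apply mul_le_mul_of_nonneg_left _ (by positivity)
          simp
        exact h4.trans h5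
      rw [← h0] at h3
      have : 0 < x / (m + 1) := by positivity
      linarith
    · rw [mul_comm, ← div_le_iff₀ hpos]
      apply le_frac ⟨m, hm⟩
      intro a' b' hb' h'
      rw [div_le_iff₀ hpos, mul_comm]
      rcases eq_or_lt_of_le (show (0 : ℝ) ≤ (a' : ℝ) / b' by positivity) with h0 | hpos'
      · have := key n 1 a' b' one_pos hb' hn h'
        rw [← h0, mul_zero] at this ⊢
        exact this
      · rw [← div_le_iff₀ hpos']
        apply le_frac ⟨n, hn⟩
        intro a b hb h
        rw [div_le_iff₀ hpos']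
        exact key a b a' b' hb hb' h h'
  · apply le_frac (covOn_of_cover (cover_prod hG hH) _)
    rintro a b hb ⟨T, c, hT, h1, h2⟩
    classical
    have hb' : (0 : ℝ) < b := by exact_mod_cast hb
    rcases eq_or_lt_of_le (frac_nonneg H S') with h0 | hpos
    · rw [← h0, mul_zero]
      positivity
    -- `S'` is nonempty as `frac H S' > 0`
    set TG : V → Finset ℕ := fun u => T.filter fun i => ∃ v ∈ S', i ∈ c (u, v) with hTG
    have hH' : ∀ u ∈ S, CovOn H S' (TG u).card b := by
      intro u hu
      refine ⟨TG u, fun v => (TG u).filter fun i => ∃ u' ∈ S, i ∈ c (u', v), le_rfl, ?_, ?_⟩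
      · intro v hv
        refine ⟨Finset.filter_subset _ _, (h1 (u, v) ⟨hu, hv⟩).2.trans (Finset.card_le_card ?_)⟩
        intro i hi
        rw [Finset.mem_filter, hTG, Finset.mem_filter]
        exact ⟨⟨(h1 (u, v) ⟨hu, hv⟩).1 hi, v, hv, hi⟩, u, hu, hi⟩
      · intro v hv v' hv' hvv hadj
        rw [Finset.disjoint_left]
        intro i hi hi'
        rw [Finset.mem_filter] at hi hi'
        obtain ⟨_, u1, hu1, hi1⟩ := hi
        obtain ⟨_, u2, hu2, hi2⟩ := hi'
        refine Finset.disjoint_left.1 (h2 (u1, v) ⟨hu1, hv⟩ (u2, v') ⟨hu2, hv'⟩ ?_ ?_) hi1 hi2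
        · intro e
          exact hvv (Prod.ext_iff.1 e).2
        · rintro ⟨_, _, h3 | h3⟩
          · exact hvv h3
          · exact hadj h3
    have hTGc : ∀ u ∈ S, ⌈(b : ℝ) * frac H S'⌉₊ ≤ (TG u).card := by
      intro u hu
      rw [Nat.ceil_le]
      have := frac_le hb (hH' u hu)
      rw [le_div_iff₀ hb'] at this
      linarith
    have hceil : 0 < ⌈(b : ℝ) * frac H S'⌉₊ := by
      rw [Nat.ceil_pos]
      positivity
    have hG' : CovOn G S a ⌈(b : ℝ) * frac H S'⌉₊ := by
      refine ⟨T, TG, hT, fun u hu => ⟨Finset.filter_subset _ _, hTGc u hu⟩, ?_⟩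
      intro u hu u' hu' huu hadj
      rw [Finset.disjoint_left]
      intro i hi hi'
      rw [hTG, Finset.mem_filter] at hi hi'
      obtain ⟨_, v1, hv1, hi1⟩ := hi
      obtain ⟨_, v2, hv2, hi2⟩ := hi'
      refine Finset.disjoint_left.1 (h2 (u, v1) ⟨hu, hv1⟩ (u', v2) ⟨hu', hv2⟩ ?_ ?_) hi1 hi2
      · intro e
        exact huu (Prod.ext_iff.1 e).1
      · rintro ⟨_, h3 | h3, _⟩
        · exact huu h3
        · exact hadj h3
    have e1 := frac_le hceil hG'
    have e2 : (b : ℝ) * frac H S' ≤ ⌈(b : ℝ) * frac H S'⌉₊ := Nat.le_ceil _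
    have e3 : (a : ℝ) / ⌈(b : ℝ) * frac H S'⌉₊ ≤ a / (b * frac H S') := by
      apply div_le_div_of_nonneg_left (by positivity) (by positivity) e2
    have e4 : frac G S ≤ a / (b * frac H S') := e1.trans e3
    rw [le_div_iff₀ (by positivity)] at e4
    rw [le_div_iff₀ hb']
    linarith

end Pool.Agent.MP83ab87
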