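import Pool.Agent.Lib.MP_83ab87_co.Frac

/-!
# Two spectral points that agree on finite graphs, and a graph that separates them
-/

namespace Pool.Agent.MP83ab87

open Finset

variable {V W : Type}

/-- The first spectral point: the fractional clique covering number (an infimum of ratios). -/
noncomputable def point1 : SpectralPoint where
  toFun G := frac G.graph Set.univ
  nonneg G := frac_nonneg _ _
  map_sum G H := by
    have := frac_sum G.cover H.cover Set.univ
    rw [Set.preimage_univ, Set.preimage_univ] at this
    exact this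
  map_prod G H := by
    have := frac_prod G.cover H.cover Set.univ Set.univ
    rw [Set.univ_prod_univ] at this
    exact this
  map_edgeless n := frac_edgeless n
  mono G H h := by
    obtain ⟨f, hf⟩ := h
    exact frac_comap (covOn_of_cover H.cover _) f (fun _ _ => Set.mem_univ _)
      (fun u _ v _ huv hadj => hf u v huv hadj)

/-- Supremum of `frac` over finite sets of vertices. -/
noncomputable def finFrac (G : SimpleGraph V) : ℝ := ⨆ S : Finset V, frac G (S : Set V)

theorem finFrac_bdd {G : SimpleGraph V} (hG : ∃ n : ℕ, CohomLE G (edgeless n)) :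
    BddAbove (Set.range fun S : Finset V => frac G (S : Set V)) := by
  refine ⟨frac G Set.univ, ?_⟩
  rintro _ ⟨S, rfl⟩
  exact frac_mono (covOn_of_cover hG _) (Set.subset_univ _)

theorem le_finFrac {G : SimpleGraph V} (hG : ∃ n : ℕ, CohomLE G (edgeless n)) (S : Finset V) :
    frac G (S : Set V) ≤ finFrac G :=
  le_ciSup (finFrac_bdd hG) S

theorem finFrac_nonneg {G : SimpleGraph V} (hG : ∃ n : ℕ, CohomLE G (edgeless n)) :
    0 ≤ finFrac G :=
  (frac_nonneg G ((∅ : Finset V) : Set V)).trans (le_finFrac hG ∅)

theorem finFrac_of_finite {G : SimpleGraph V} (hG : ∃ n : ℕ, CohomLE G (edgeless n))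
    [Finite V] : finFrac G = frac G Set.univ := by
  have := Fintype.ofFinite V
  apply le_antisymm
  · apply ciSup_le
    intro S
    exact frac_mono (covOn_of_cover hG _) (Set.subset_univ _)
  · have := le_finFrac hG Finset.univ
    rwa [Finset.coe_univ] at this

theorem finFrac_sum {G : SimpleGraph V} {H : SimpleGraph W}
    (hG : ∃ n : ℕ, CohomLE G (edgeless n)) (hH : ∃ n : ℕ, CohomLE H (edgeless n)) :
    finFrac (G.sum H) = finFrac G + finFrac H := by
  classical
  apply le_antisymm
  · apply ciSup_le
    intro S
    rw [frac_sum hG hH]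
    have e1 : (Sum.inl ⁻¹' (S : Set (V ⊕ W)) : Set V) = (S.toLeft : Set V) := by
      ext v; simp
    have e2 : (Sum.inr ⁻¹' (S : Set (V ⊕ W)) : Set W) = (S.toRight : Set W) := by
      ext v; simp
    rw [e1, e2]
    exact add_le_add (le_finFrac hG _) (le_finFrac hH _)
  · have key : ∀ (S : Finset V) (S' : Finset W),
        frac G (S : Set V) + frac H (S' : Set W) ≤ finFrac (G.sum H) := by
      intro S S'
      have h := frac_sum hG hH ((S.disjSum S' : Finset (V ⊕ W)) : Set (V ⊕ W))
      have e1 : (Sum.inl ⁻¹' ((S.disjSum S' : Finset (V ⊕ W)) : Set (V ⊕ W)) : Set V) = S := by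
        ext v; simp
      have e2 : (Sum.inr ⁻¹' ((S.disjSum S' : Finset (V ⊕ W)) : Set (V ⊕ W)) : Set W) = S' := by
        ext v; simp
      rw [e1, e2] at h
      rw [← h]
      exact le_finFrac (cover_sum hG hH) _
    have h1 : finFrac G ≤ finFrac (G.sum H) - finFrac H := by
      apply ciSup_le
      intro S
      have h2 : finFrac H ≤ finFrac (G.sum H) - frac G (S : Set V) := by
        apply ciSup_le
        intro S'
        have := key S S'
        linarith
      linarith
    linarith

theorem finFrac_prod {G : SimpleGraph V} {H : SimpleGraph W}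
    (hG : ∃ n : ℕ, CohomLE G (edgeless n)) (hH : ∃ n : ℕ, CohomLE H (edgeless n)) :
    finFrac (strongProduct G H) = finFrac G * finFrac H := by
  classical
  apply le_antisymm
  · apply ciSup_le
    intro S
    have hsub : (S : Set (V × W)) ⊆
        ((S.image Prod.fst : Finset V) : Set V) ×ˢ ((S.image Prod.snd : Finset W) : Set W) := by
      rintro ⟨v, w⟩ h
      simp only [Finset.coe_image, Set.mem_prod, Set.mem_image, Finset.mem_coe, Prod.exists,
        exists_and_right, exists_eq_right]
      exact ⟨⟨w, h⟩, ⟨v, h⟩⟩
    refine (frac_mono (covOn_of_cover (cover_prod hG hH) _) hsub).trans ?_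
    rw [frac_prod hG hH]
    exact mul_le_mul (le_finFrac hG _) (le_finFrac hH _) (frac_nonneg _ _) (finFrac_nonneg hG)
  · have key : ∀ (S : Finset V) (S' : Finset W),
        frac G (S : Set V) * frac H (S' : Set W) ≤ finFrac (strongProduct G H) := by
      intro S S'
      rw [← frac_prod hG hH, ← Finset.coe_product]
      exact le_finFrac (cover_prod hG hH) _
    unfold finFrac at key ⊢
    rw [Real.iSup_mul_of_nonneg (Real.iSup_nonneg fun S => frac_nonneg _ _)]
    apply ciSup_le
    intro S
    rw [Real.mul_iSup_of_nonneg (frac_nonneg _ _)]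
    apply ciSup_le
    intro S'
    exact key S S'

/-- The second spectral point: the supremum of the fractional clique covering numbers of the finite
induced subgraphs. -/
noncomputable def point2 : SpectralPoint where
  toFun G := finFrac G.graph
  nonneg G := finFrac_nonneg G.cover
  map_sum G H := finFrac_sum G.cover H.cover
  map_prod G H := finFrac_prod G.cover H.cover
  map_edgeless n := by
    have : Finite (GInf.edgeless n).V := inferInstanceAs (Finite (Fin n))
    rw [finFrac_of_finite (GInf.edgeless n).cover]
    exact frac_edgeless n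
  mono G H h := by
    classical
    obtain ⟨f, hf⟩ := h
    apply ciSup_le
    intro S
    refine le_trans ?_ (le_finFrac H.cover (S.image f))
    apply frac_comap (covOn_of_cover H.cover _) f
    · intro u hu
      rw [Finset.coe_image]
      exact Set.mem_image_of_mem f hu
    · intro u _ v _ huv hadj
      exact hf u v huv hadj

/-- The tensor (categorical) product of the complete graph `K_m` with the shift graph on pairs
`i < j` of natural numbers; pairs with `j ≤ i` give isolated vertices. -/
def shiftProd (m : ℕ) : SimpleGraph (Fin m × ℕ × ℕ) where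
  Adj p q := p.1 ≠ q.1 ∧ p.2.1 < p.2.2 ∧ q.2.1 < q.2.2 ∧ (p.2.2 = q.2.1 ∨ q.2.2 = p.2.1)
  symm := ⟨fun _ _ h => ⟨h.1.symm, h.2.2.1, h.2.1, h.2.2.2.symm⟩⟩
  loopless := ⟨fun _ h => h.1 rfl⟩

/-- The complement of `shiftProd m`, as an element of `𝒢_∞`. -/
def wit (m : ℕ) : GInf where
  V := Fin m × ℕ × ℕ
  graph := (shiftProd m)ᶜ
  card_le := (Cardinal.mk_le_aleph0).trans Cardinal.aleph0_le_continuum
  cover := by
    refine ⟨m, fun p => p.1, ?_⟩
    intro u v huv hadj
    refine ⟨?_, fun h => h⟩
    rw [SimpleGraph.compl_adj] at hadj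
    push Not at hadj
    exact (hadj huv).1

theorem wit_nonadj {m : ℕ} {u v : Fin m × ℕ × ℕ} :
    (u ≠ v ∧ ¬ (shiftProd m)ᶜ.Adj u v) ↔ (shiftProd m).Adj u v := by
  rw [SimpleGraph.compl_adj]
  constructor
  · rintro ⟨h1, h2⟩
    push Not at h2
    exact h2 h1
  · intro h
    refine ⟨h.ne, ?_⟩
    push Not
    exact fun _ => h

/-- The first spectral point is at least `m` on the graph `wit m`. -/
theorem le_point1_wit (m : ℕ) : (m : ℝ) ≤ point1.toFun (wit m) := by
  apply le_frac (covOn_of_cover (wit m).cover _)
  rintro a b hb ⟨T, c, hT, h1, h2⟩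
  rw [le_div_iff₀ (by exact_mod_cast hb)]
  by_contra hcon
  push Not at hcon
  have hlt : a < m * b := by exact_mod_cast hcon
  classical
  have hdisj : ∀ u v : Fin m × ℕ × ℕ, (shiftProd m).Adj u v → Disjoint (c u) (c v) := by
    intro u v huv
    rw [← wit_nonadj] at huv
    exact h2 u (Set.mem_univ _) v (Set.mem_univ _) huv.1 huv.2
  -- for every pair there is a colour used in two different rows
  have hex : ∀ p : ℕ × ℕ, ∃ t ∈ T, ∃ x y : Fin m, x ≠ y ∧ t ∈ c (x, p) ∧ t ∈ c (y, p) := by
    intro p
    by_contra hno
    push Not at hno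
    have hpd : ∀ x ∈ (Finset.univ : Finset (Fin m)), ∀ y ∈ (Finset.univ : Finset (Fin m)),
        x ≠ y → Disjoint (c (x, p)) (c (y, p)) := by
      intro x _ y _ hxy
      rw [Finset.disjoint_left]
      intro t ht ht'
      exact hno t ((h1 (x, p) (Set.mem_univ _)).1 ht) x y hxy ht ht'
    have h3 := Finset.card_biUnion hpd
    have h4 : (Finset.univ.biUnion fun x : Fin m => c (x, p)) ⊆ T := by
      intro t ht
      rw [Finset.mem_biUnion] at ht
      obtain ⟨x, _, hx⟩ := ht
      exact (h1 (x, p) (Set.mem_univ _)).1 hx
    have h5 : ∑ _x : Fin m, b ≤ ∑ x : Fin m, (c (x, p)).card :=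
      Finset.sum_le_sum fun x _ => (h1 (x, p) (Set.mem_univ _)).2
    have h6 := Finset.card_le_card h4
    simp only [Finset.sum_const, Finset.card_univ, Fintype.card_fin, smul_eq_mul] at h5
    omega
  choose φ hφT hφ using hex
  -- `φ` is a proper colouring of the shift graph
  have hproper : ∀ i j k : ℕ, i < j → j < k → φ (i, j) ≠ φ (j, k) := by
    intro i j k hij hjk he
    obtain ⟨x, y, hxy, hx, hy⟩ := hφ (i, j)
    obtain ⟨x', y', hxy', hx', hy'⟩ := hφ (j, k)
    rw [← he] at hx'
    by_cases hxx : x = x'
    · have hyx : y ≠ x' := fun h => hxy (hxx.trans h.symm)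
      exact Finset.disjoint_left.1
        (hdisj (y, i, j) (x', j, k) ⟨hyx, hij, hjk, Or.inl rfl⟩) hy hx'
    · exact Finset.disjoint_left.1
        (hdisj (x, i, j) (x', j, k) ⟨hxx, hij, hjk, Or.inl rfl⟩) hx hx'
  -- the sets of colours seen above `j` are pairwise distinct
  let A : ℕ → Finset ℕ := fun j => T.filter fun t => ∃ k, j < k ∧ φ (j, k) = t
  have hA : ∀ j, A j ∈ T.powerset := fun j => Finset.mem_powerset.2 (Finset.filter_subset _ _)
  have hne : ∀ i j, i < j → A i ≠ A j := by
    intro i j hij he
    have h3 : φ (i, j) ∈ A i := by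
      rw [Finset.mem_filter]
      exact ⟨hφT _, j, hij, rfl⟩
    rw [he, Finset.mem_filter] at h3
    obtain ⟨_, k, hjk, hk⟩ := h3
    exact hproper i j k hij hjk hk.symm
  have hinj : Function.Injective A := by
    intro i j he
    rcases lt_trichotomy i j with h | h | h
    · exact absurd he (hne i j h)
    · exact h
    · exact absurd he.symm (hne j i h)
  have hfin : (Set.range A).Finite :=
    (T.powerset.finite_toSet).subset (by rintro _ ⟨j, rfl⟩; exact hA j)
  exact Set.infinite_range_of_injective hinj hfin

/-- The second spectral point is at most `4` on the graph `wit m`. -/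
theorem finFrac_shiftProd_le (m : ℕ) : finFrac (shiftProd m)ᶜ ≤ 4 := by
  apply ciSup_le
  intro S
  -- a bound on the coordinates
  obtain ⟨N, hN2, hN⟩ : ∃ N : ℕ, 2 ≤ N ∧ ∀ p ∈ S, p.2.1 < N ∧ p.2.2 < N := by
    refine ⟨(S.sup fun p => p.2.1) + (S.sup fun p => p.2.2) + 2, by omega, ?_⟩
    intro p hp
    have h1 := Finset.le_sup (f := fun p : Fin m × ℕ × ℕ => p.2.1) hp
    have h2 := Finset.le_sup (f := fun p : Fin m × ℕ × ℕ => p.2.2) hp
    exact ⟨by omega, by omega⟩
  obtain ⟨M, rfl⟩ : ∃ M, N = M + 2 := ⟨N - 2, by omega⟩
  classical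
  -- colours: subsets of `{0, …, N-1}`
  let T : Finset (Finset ℕ) := (Finset.range (M + 2)).powerset
  let c : Fin m × ℕ × ℕ → Finset (Finset ℕ) := fun p =>
    T.filter fun R => p.2.1 < p.2.2 → (p.2.1 ∈ R ∧ p.2.2 ∉ R)
  have hcov : CovOn (shiftProd m)ᶜ (S : Set (Fin m × ℕ × ℕ)) (2 ^ (M + 2)) (2 ^ M) := by
    refine covOn_of_encodable T c (by simp [T]) ?_ ?_
    · intro p hp
      refine ⟨Finset.filter_subset _ _, ?_⟩
      obtain ⟨hp1, hp2⟩ := hN p hp
      by_cases hlt : p.2.1 < p.2.2
      · -- the sets containing the first and not the second coordinate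
        have h3 : (((Finset.range (M + 2)).erase p.2.1).erase p.2.2).card = M := by
          rw [Finset.card_erase_of_mem, Finset.card_erase_of_mem, Finset.card_range]
          · omega
          · simpa using hp1
          · rw [Finset.mem_erase]
            exact ⟨hlt.ne', by simpa using hp2⟩
        have h4 : ((((Finset.range (M + 2)).erase p.2.1).erase p.2.2).powerset).card = 2 ^ M := by
          rw [Finset.card_powerset, h3]
        rw [← h4]
        apply Finset.card_le_card_of_injOn (fun R => insert p.2.1 R)
        · intro R hR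
          rw [Finset.mem_coe, Finset.mem_powerset] at hR
          simp only [c, T, Finset.coe_filter, Finset.mem_powerset, Set.mem_ofPred_eq]
          refine ⟨?_, fun _ => ⟨Finset.mem_insert_self _ _, ?_⟩⟩
          · intro x hx
            rw [Finset.mem_insert] at hx
            rcases hx with rfl | hx
            · simpa using hp1
            · exact Finset.mem_of_mem_erase (Finset.mem_of_mem_erase (hR hx))
          · rw [Finset.mem_insert]
            rintro (h5 | h5)
            · exact hlt.ne' h5
            · exact Finset.notMem_erase _ _ (hR h5)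
        · intro R hR R' hR' he
          rw [Finset.mem_coe, Finset.mem_powerset] at hR hR'
          have h6 : p.2.1 ∉ R := fun h => by
            have := Finset.mem_of_mem_erase (hR h)
            exact Finset.notMem_erase _ _ this
          have h7 : p.2.1 ∉ R' := fun h => by
            have := Finset.mem_of_mem_erase (hR' h)
            exact Finset.notMem_erase _ _ this
          have h8 := congrArg (fun R => R.erase p.2.1) he
          simp only [Finset.erase_insert h6, Finset.erase_insert h7] at h8
          exact h8
      · have h3 : c p = T := by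
          apply Finset.filter_true_of_mem
          intro R _ h
          exact absurd h hlt
        rw [h3, Finset.card_powerset, Finset.card_range]
        exact Nat.pow_le_pow_right (by norm_num) (by omega)
    · intro u _ v _ huv hadj
      have h3 : (shiftProd m).Adj u v := wit_nonadj.1 ⟨huv, hadj⟩
      obtain ⟨_, hu, hv, h4⟩ := h3
      rw [Finset.disjoint_left]
      intro R hR hR'
      rw [Finset.mem_filter] at hR hR'
      have h5 := hR.2 hu
      have h6 := hR'.2 hv
      rcases h4 with h4 | h4
      · rw [h4] at h5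
        exact h5.2 h6.1
      · rw [h4] at h6
        exact h6.2 h5.1
  have h := frac_le (by positivity) hcov
  refine h.trans ?_
  push_cast
  rw [pow_add, mul_div_assoc, mul_comm, div_mul_cancel₀ _ (by positivity)]
  norm_num

theorem point2_wit_le (m : ℕ) : point2.toFun (wit m) ≤ 4 :=
  finFrac_shiftProd_le m

/-- The two spectral points agree on finite graphs. -/
theorem point1_eq_point2 (H : GInf) [Finite H.V] : point1.toFun H = point2.toFun H :=
  (finFrac_of_finite H.cover).symm

theorem le_asympDist (F : SpectralPoint) (G H : GInf) :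
    ENNReal.ofReal |F.toFun G - F.toFun H| ≤ asympDist G H :=
  le_iSup (fun F : SpectralPoint => ENNReal.ofReal |F.toFun G - F.toFun H|) F

/-- Sanity check: the distance is always finite, as `F(G)` is at most the clique covering number. -/
theorem asympDist_lt_top (G H : GInf) : asympDist G H < ⊤ := by
  obtain ⟨n, hn⟩ := G.cover
  obtain ⟨m, hm⟩ := H.cover
  refine lt_of_le_of_lt (b := ENNReal.ofReal (n + m)) ?_ ENNReal.ofReal_lt_top
  apply iSup_le
  intro F
  apply ENNReal.ofReal_le_ofReal
  have h1 := F.mono G (GInf.edgeless n) hn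
  have h2 := F.mono H (GInf.edgeless m) hm
  rw [F.map_edgeless] at h1 h2
  have h3 := F.nonneg G
  have h4 := F.nonneg H
  rw [abs_le]
  constructor <;> linarith

end Pool.Agent.MP83ab87
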